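import Pool.Agent.MP_fe632d_an.Bridge

open MeasureTheory Set
open scoped ENNReal NNReal

namespace Pool.Agent.Results.MP_fe632d_an.AllCompactIff

open Pool.Agent.MP_fe632d_an

universe u

/-- For every measure space, the support expansion algebra contains all compact operators iff the
measure is purely atomic or all sets of finite positive measure have one and the same infinite
density; and it contains all compact operators on `L²(ℝ)`. -/
theorem result :
    (∀ (X : Type u) [MeasurableSpace X] (μ : Measure X),
      (∀ k : Public.Op μ, IsCompactOperator k → k ∈ Public.CStarU μ) ↔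
        (Public.PurelyAtomic μ ∨ ∃ κ : Cardinal.{u}, Cardinal.aleph0 ≤ κ ∧
          ∀ A, MeasurableSet A → μ A ≠ 0 → μ A ≠ ∞ → Public.density μ A = κ)) ∧
    (∀ k : Public.Op (volume : Measure ℝ),
      IsCompactOperator k → k ∈ Public.CStarU (volume : Measure ℝ)) := by
  refine ⟨fun X _ μ => ?_, fun k hk => ?_⟩
  · rw [← cStarU_eq_public]
    exact all_compact_iff μ
  · rw [← cStarU_eq_public]
    exact real_all_compact k hk

end Pool.Agent.Results.MP_fe632d_an.AllCompactIff
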