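import Pool.Agent.MP_fe632d_an.Bridge

open MeasureTheory Set
open scoped ENNReal NNReal

namespace Pool.Agent.Results.MP_fe632d_an.NonzeroCompact

open Pool.Agent.MP_fe632d_an

universe u

/-- For every measure space with nonzero `L²`, the support expansion algebra contains a nonzero
compact operator. -/
theorem result (X : Type u) [MeasurableSpace X] (μ : Measure X) :
    (∃ k : Public.Op μ, k ∈ Public.CStarU μ ∧ IsCompactOperator k ∧ k ≠ 0) ↔
      ∃ ξ : Public.Hil μ, ξ ≠ 0 := by
  constructor
  · rintro ⟨k, -, -, hk⟩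
    by_contra hcon
    push Not at hcon
    apply hk
    ext1 f
    rw [hcon (k f), hcon ((0 : Public.Op μ) f)]
  · intro h
    obtain ⟨k, h1, h2, h3⟩ := exists_compact (μ := μ) h
    rw [cStarU_eq_public] at h1
    exact ⟨k, h1, h2, h3⟩

end Pool.Agent.Results.MP_fe632d_an.NonzeroCompact
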